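import Pool.Agent.Q193.PS.Main

/-!
# Two pure states of a simple C*-algebra without equivalent unique extensions

There are a (unital) simple C*-algebra `A` and pure states `φ`, `ψ` of `A` such that for no
C*-algebra `B` containing `A` (unital or not, with or without the same unit) both states have
unique state extensions to `B` that are conjugate by an automorphism of `B`. This answers the
question in the negative.

`A` is the C*-algebra generated on `ℓ²(L)`, `L` the countable direct sum of copies of `ZMod 2`, by
the translations and by the multiplications with all characters of `L`.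
-/

set_option autoImplicit false

namespace Pool.Agent.Results.MP_8219a1_an.NoCommonExtension

open Pool.Agent.Q193.PS

universe u

/-- Negative answer to Q1. -/
theorem result : ∃ (A : Type) (_ : CStarAlgebra A) (φ ψ : A →L[ℂ] ℂ),
    SimpleCStar A ∧ IsPure φ ∧ IsPure ψ ∧
      ∀ (B : Type u) [NonUnitalCStarAlgebra B] (ι : A →⋆ₙₐ[ℂ] B), Function.Injective ι →
        ¬ ∃ (φ' ψ' : B →L[ℂ] ℂ) (α : B ≃⋆ₐ[ℂ] B),
          UniqueExt ι φ φ' ∧ UniqueExt ι ψ ψ' ∧ ∀ b, φ' b = ψ' (α b) := by
  refine ⟨AA, inferInstance, phi, om 0, simple_AA, isPure_phi, isPure_psi, ?_⟩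
  rintro B _ ι - ⟨φ', ψ', α, h1, h2, h3⟩
  exact main ι φ' ψ' α h1 h2 h3

end Pool.Agent.Results.MP_8219a1_an.NoCommonExtension
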